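import Mathlib
import Pool.Agent.Q210.Alt.CM
import Pool.Agent.Q210.Alt.Lim

namespace Pool.Agent.Results.MP_bae362_pr.ContaminationModel

open MeasureTheory Filter Topology Set
open scoped ENNReal NNReal
open Pool.Agent.Q210.Alt (CM ratio)

/-- `m(A) = ∫_A L dπ`. -/
noncomputable def m {E : Type*} [MeasurableSpace E] (π : Measure E) (L : E → ℝ≥0) (A : Set E) :
    ℝ≥0∞ := ∫⁻ x in A, (L x : ℝ≥0∞) ∂π

/-- `M(A) = sup_{x ∈ A} L(x)`, equal to `0` for `A = ∅`. -/
noncomputable def M {E : Type*} (L : E → ℝ≥0) (A : Set E) : ℝ≥0∞ := ⨆ x ∈ A, (L x : ℝ≥0∞)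

/-- The posterior upper probability in the `ε`-contamination model with prior `π`:
`v(A) = ((1-ε) m(A) + ε M(A)) / ((1-ε) m(E) + ε M(A))`, which is `1` if `M(A) = ∞` and `0` if
`m(E) = M(A) = 0`. -/
noncomputable def v {E : Type*} [MeasurableSpace E] (π : Measure E) (L : E → ℝ≥0) (ε : ℝ)
    (A : Set E) : ℝ :=
  if M L A = ⊤ then 1 else
    ((ENNReal.ofReal (1 - ε) * m π L A + ENNReal.ofReal ε * M L A) /
      (ENNReal.ofReal (1 - ε) * m π L univ + ENNReal.ofReal ε * M L A)).toReal

section sets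

variable {E : Type*} (L : E → ℝ≥0)

lemma M_union (K K' : Set E) : M L (K ∪ K') = max (M L K) (M L K') := by
  apply le_antisymm
  · apply iSup₂_le
    rintro x (hx | hx)
    · exact le_max_of_le_left (le_iSup₂ (f := fun x _ => (L x : ℝ≥0∞)) x hx)
    · exact le_max_of_le_right (le_iSup₂ (f := fun x _ => (L x : ℝ≥0∞)) x hx)
  · apply max_le
    · exact iSup₂_le (fun x hx => le_iSup₂ (f := fun x _ => (L x : ℝ≥0∞)) x (Or.inl hx))
    · exact iSup₂_le (fun x hx => le_iSup₂ (f := fun x _ => (L x : ℝ≥0∞)) x (Or.inr hx))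

lemma min_ne_top (a : ℝ≥0∞) (k : ℕ) : min a (k : ℝ≥0∞) ≠ ⊤ :=
  ne_top_of_le_ne_top (ENNReal.natCast_ne_top k) (min_le_right _ _)

lemma min_toReal_le (a : ℝ≥0∞) (k : ℕ) : (min a (k : ℝ≥0∞)).toReal ≤ k := by
  have := ENNReal.toReal_mono (ENNReal.natCast_ne_top k) (min_le_right a (k : ℝ≥0∞))
  simpa using this

lemma iSup_min (a : ℝ≥0∞) : ⨆ k : ℕ, min a (k : ℝ≥0∞) = a := by
  rw [← inf_iSup_eq, ENNReal.iSup_natCast]
  simp

end sets

section main

variable {E : Type*} [MeasurableSpace E] {π : Measure E} [IsProbabilityMeasure π] {L : E → ℝ≥0}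
  {ε : ℝ}

/-- truncated `∫_A L` -/
noncomputable def mk (π : Measure E) (L : E → ℝ≥0) (k : ℕ) (A : Set E) : ℝ≥0∞ :=
  ∫⁻ x in A, min (L x : ℝ≥0∞) k ∂π

lemma mk_ne_top (k : ℕ) (A : Set E) : mk π L k A ≠ ⊤ := by
  have h : mk π L k A ≤ ∫⁻ _ in A, (k : ℝ≥0∞) ∂π := lintegral_mono (fun x => min_le_right _ _)
  rw [lintegral_const] at h
  exact ne_top_of_le_ne_top (ENNReal.mul_ne_top (ENNReal.natCast_ne_top k) (measure_ne_top _ _)) h

lemma mk_mono (A : Set E) : Monotone (fun k => mk π L k A) := by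
  intro k k' h
  apply lintegral_mono
  intro x
  exact min_le_min_left _ (by exact_mod_cast h)

lemma mk_iSup (hL : Measurable L) (A : Set E) : ⨆ k, mk π L k A = m π L A := by
  unfold mk m
  rw [← lintegral_iSup]
  · simp only [iSup_min]
  · intro k
    exact hL.coe_nnreal_ennreal.min measurable_const
  · intro k k' h x
    exact min_le_min_left _ (by exact_mod_cast h)

/-- truncated numerator -/
noncomputable def sk (π : Measure E) (L : E → ℝ≥0) (ε : ℝ) (k : ℕ) (A : Set E) : ℝ≥0∞ :=
  ENNReal.ofReal (1 - ε) * mk π L k A + ENNReal.ofReal ε * min (M L A) k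

/-- truncated `t` -/
noncomputable def tk (π : Measure E) (L : E → ℝ≥0) (ε : ℝ) (k : ℕ) (A : Set E) : ℝ≥0∞ :=
  ENNReal.ofReal (1 - ε) * mk π L k Aᶜ

lemma toReal_compl (k : ℕ) {A : Set E} (hA : MeasurableSet A) :
    (mk π L k A).toReal + (mk π L k Aᶜ).toReal = (mk π L k univ).toReal := by
  rw [← ENNReal.toReal_add (mk_ne_top k A) (mk_ne_top k _)]
  unfold mk
  rw [lintegral_add_compl _ hA, Measure.restrict_univ]

open Classical in
lemma trunc_CM (hL : Measurable L) (h0 : 0 < ε) (h1 : ε < 1) (k : ℕ) :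
    CM {A : Set E | MeasurableSet A} (fun A => 1 - (sk π L ε k A).toReal /
      ((sk π L ε k A).toReal + (tk π L ε k A).toReal + 1 / ((k : ℝ) + 1))) := by
  have hS : ∀ A ∈ {A : Set E | MeasurableSet A}, ∀ B ∈ {A : Set E | MeasurableSet A},
      A ∪ B ∈ {A : Set E | MeasurableSet A} := fun A hA B hB => MeasurableSet.union hA hB
  have iL : Integrable (fun x => (min (L x : ℝ≥0∞) (k : ℝ≥0∞)).toReal) π := by
    apply Integrable.of_bound (C := (k : ℝ))
    · exact (hL.coe_nnreal_ennreal.min measurable_const).ennreal_toReal.aestronglyMeasurable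
    · refine Eventually.of_forall (fun x => ?_)
      rw [Real.norm_of_nonneg ENNReal.toReal_nonneg]
      exact min_toReal_le _ _
  have iT : ∀ A ∈ {A : Set E | MeasurableSet A},
      Integrable (fun x => if x ∈ A then 0 else (min (L x : ℝ≥0∞) (k : ℝ≥0∞)).toReal) π := by
    intro A hA
    have h := iL.indicator (MeasurableSet.compl hA)
    refine h.congr (Eventually.of_forall (fun x => ?_))
    by_cases hx : x ∈ A
    · have hx' : x ∉ Aᶜ := fun h => h hx
      simp only [indicator_of_notMem hx', if_pos hx]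
    · have hx' : x ∈ Aᶜ := hx
      simp only [indicator_of_mem hx', if_neg hx]
  have hT0 : CM {A : Set E | MeasurableSet A} (fun A => ∫ x,
      (if x ∈ A then 0 else (min (L x : ℝ≥0∞) (k : ℝ≥0∞)).toReal) ∂π) := by
    apply CM.integral hS _ iT
    intro x
    have h1 : CM {A : Set E | MeasurableSet A} (fun A => if x ∈ A then (0 : ℝ) else 1) := by
      apply CM.of_mul
      · intro A B
        by_cases hA : x ∈ A <;> by_cases hB : x ∈ B <;> simp [hA, hB]
      · intro A; split_ifs <;> norm_num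
      · intro A; split_ifs <;> norm_num
    have h2 := h1.const_mul (c := (min (L x : ℝ≥0∞) (k : ℝ≥0∞)).toReal) ENNReal.toReal_nonneg
    simpa only [mul_ite, mul_one, mul_zero] using h2
  have hT := hT0.const_mul (c := 1 - ε) (by linarith)
  have hG0 : CM univ (fun A : Set E => (k : ℝ) - (min (M L A) (k : ℝ≥0∞)).toReal) := by
    apply CM.of_min (b := k)
    · intro A B
      rw [M_union, min_max_distrib_right, ENNReal.toReal_max (min_ne_top _ _) (min_ne_top _ _),
        min_sub_sub_left]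
    · intro A
      have := min_toReal_le (M L A) k
      linarith
    · intro A
      have : (0 : ℝ) ≤ (min (M L A) (k : ℝ≥0∞)).toReal := ENNReal.toReal_nonneg
      linarith
  have hG := (hG0.mono (subset_univ {A : Set E | MeasurableSet A})).const_mul (c := ε) h0.le
  have hGb : ∀ A ∈ {A : Set E | MeasurableSet A},
      ε * ((k : ℝ) - (min (M L A) (k : ℝ≥0∞)).toReal) ≤ ε * k := by
    intro A _
    apply mul_le_mul_of_nonneg_left _ h0.le
    have : (0 : ℝ) ≤ (min (M L A) (k : ℝ≥0∞)).toReal := ENNReal.toReal_nonneg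
    linarith
  have hc : 0 ≤ (1 - ε) * (mk π L k univ).toReal :=
    mul_nonneg (by linarith) ENNReal.toReal_nonneg
  have hδ : (0 : ℝ) < 1 / ((k : ℝ) + 1) := by positivity
  have key := Pool.Agent.Q210.Alt.core_CM hS hT hG hGb hc hδ
  apply CM.congr hS key
  intro B hB
  have e1 : (mk π L k Bᶜ).toReal = ∫ x,
      (if x ∈ B then 0 else (min (L x : ℝ≥0∞) (k : ℝ≥0∞)).toReal) ∂π := by
    have e2 : (fun x => if x ∈ B then 0 else (min (L x : ℝ≥0∞) (k : ℝ≥0∞)).toReal) =
        Bᶜ.indicator (fun x => (min (L x : ℝ≥0∞) (k : ℝ≥0∞)).toReal) := by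
      funext x
      by_cases hx : x ∈ B
      · have hx' : x ∉ Bᶜ := fun h => h hx
        rw [if_pos hx, indicator_of_notMem hx']
      · have hx' : x ∈ Bᶜ := hx
        rw [if_neg hx, indicator_of_mem hx']
    rw [e2, integral_indicator (MeasurableSet.compl hB), integral_toReal]
    · rfl
    · exact (hL.coe_nnreal_ennreal.min measurable_const).aemeasurable
    · exact Eventually.of_forall (fun x => (min_ne_top _ k).lt_top)
  have e3 : (sk π L ε k B).toReal =
      (1 - ε) * (mk π L k B).toReal + ε * (min (M L B) (k : ℝ≥0∞)).toReal := by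
    unfold sk
    rw [ENNReal.toReal_add (ENNReal.mul_ne_top ENNReal.ofReal_ne_top (mk_ne_top k B))
      (ENNReal.mul_ne_top ENNReal.ofReal_ne_top (min_ne_top _ _)), ENNReal.toReal_mul,
      ENNReal.toReal_mul, ENNReal.toReal_ofReal (by linarith), ENNReal.toReal_ofReal h0.le]
  have e4 : (tk π L ε k B).toReal = (1 - ε) * (mk π L k Bᶜ).toReal := by
    unfold tk
    rw [ENNReal.toReal_mul, ENNReal.toReal_ofReal (by linarith)]
  have e5 := toReal_compl (π := π) (L := L) k hB
  rw [← e1, ← e4]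
  have hpos : (0 : ℝ) < (sk π L ε k B).toReal + (tk π L ε k B).toReal + 1 / ((k : ℝ) + 1) := by
    positivity
  have e6 : (1 - ε) * (mk π L k univ).toReal + 1 / ((k : ℝ) + 1) + ε * k -
      ε * ((k : ℝ) - (min (M L B) (k : ℝ≥0∞)).toReal) =
      (sk π L ε k B).toReal + (tk π L ε k B).toReal + 1 / ((k : ℝ) + 1) := by
    rw [e3, e4, ← e5]
    ring
  rw [e6, ← div_eq_mul_inv, eq_div_iff hpos.ne', sub_mul, div_mul_cancel₀ _ hpos.ne']
  ring

/-- In the `ε`-contamination model the posterior upper probability is completely alternating. -/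
theorem result {E : Type*} [MeasurableSpace E] (π : Measure E) [IsProbabilityMeasure π]
    (L : E → ℝ≥0) (hL : Measurable L) (hfin : m π L univ ≠ ⊤) (ε : ℝ) (h0 : 0 < ε) (h1 : ε < 1)
    (n : ℕ) (hn : n ≠ 0) (A : ℕ → Set E) (hA : ∀ i, MeasurableSet (A i)) :
    v π L ε (⋂ i ∈ Finset.range n, A i) ≤
      ∑ I ∈ (Finset.range n).powerset.erase ∅,
        (-1 : ℝ) ^ (I.card + 1) * v π L ε (⋃ i ∈ I, A i) := by
  have hε0 : ENNReal.ofReal ε ≠ 0 := by simpa using h0
  have hmtop : ∀ A : Set E, m π L A ≠ ⊤ := fun A =>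
    ne_top_of_le_ne_top hfin (lintegral_mono_set (subset_univ A))
  have hv : ∀ B : Set E, MeasurableSet B → v π L ε B =
      ratio (ENNReal.ofReal (1 - ε) * m π L B + ENNReal.ofReal ε * M L B)
        (ENNReal.ofReal (1 - ε) * m π L Bᶜ) := by
    intro B hB
    unfold v ratio
    by_cases hM : M L B = ⊤
    · rw [if_pos hM, if_pos]
      rw [hM, ENNReal.mul_top hε0, add_top]
    · rw [if_neg hM, if_neg]
      · congr 2
        rw [add_right_comm, ← mul_add]
        congr 2
        unfold m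
        rw [lintegral_add_compl _ hB, Measure.restrict_univ]
      · exact ENNReal.add_ne_top.mpr ⟨ENNReal.mul_ne_top ENNReal.ofReal_ne_top (hmtop B),
          ENNReal.mul_ne_top ENNReal.ofReal_ne_top hM⟩
  have hlim : ∀ B : Set E, MeasurableSet B → Tendsto (fun k : ℕ => (sk π L ε k B).toReal /
      ((sk π L ε k B).toReal + (tk π L ε k B).toReal + 1 / ((k : ℝ) + 1))) atTop
      (𝓝 (v π L ε B)) := by
    intro B hB
    rw [hv B hB]
    apply Pool.Agent.Q210.Alt.ratio_tendsto
    · exact ENNReal.mul_ne_top ENNReal.ofReal_ne_top (hmtop _)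
    · intro k k' h
      exact add_le_add (mul_le_mul_right (mk_mono B h) _)
        (mul_le_mul_right (min_le_min_left _ (by exact_mod_cast h)) _)
    · intro k k' h
      exact mul_le_mul_right (mk_mono Bᶜ h) _
    · intro k
      exact ENNReal.add_ne_top.mpr ⟨ENNReal.mul_ne_top ENNReal.ofReal_ne_top (mk_ne_top k B),
        ENNReal.mul_ne_top ENNReal.ofReal_ne_top (min_ne_top _ _)⟩
    · intro k
      exact ENNReal.mul_ne_top ENNReal.ofReal_ne_top (mk_ne_top k _)
    · unfold sk
      rw [← ENNReal.iSup_add_iSup_of_monotone, ← ENNReal.mul_iSup, ← ENNReal.mul_iSup,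
        mk_iSup hL, iSup_min]
      · intro k k' h
        exact mul_le_mul_right (mk_mono B h) _
      · intro k k' h
        exact mul_le_mul_right (min_le_min_left _ (by exact_mod_cast h)) _
    · unfold tk
      rw [← ENNReal.mul_iSup, mk_iSup hL]
  have hcap : MeasurableSet (⋂ i ∈ Finset.range n, A i) :=
    Finset.measurableSet_biInter _ (fun i _ => hA i)
  have h2 := fun k : ℕ => Pool.Agent.Q210.Alt.alt_of_CM (S := {A : Set E | MeasurableSet A})
    (V := fun A => (sk π L ε k A).toReal /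
      ((sk π L ε k A).toReal + (tk π L ε k A).toReal + 1 / ((k : ℝ) + 1)))
    (trunc_CM (π := π) hL h0 h1 k) hn (A := A) hA hcap
  refine le_of_tendsto_of_tendsto' (hlim _ hcap) ?_ h2
  apply tendsto_finsetSum
  intro I _
  exact (hlim _ (Finset.measurableSet_biUnion _ (fun i _ => hA i))).const_mul _

end main

end Pool.Agent.Results.MP_bae362_pr.ContaminationModel
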