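import Mathlib
import Pool.Agent.Q210.Alt.Meas
import Pool.Agent.Q210.Alt.CM
import Pool.Agent.Q210.Alt.Lim

namespace Pool.Agent.Results.MP_bae362_pr.SelectionPriors

open MeasureTheory Filter Topology Set
open scoped ENNReal NNReal
open Pool.Agent.Q210.Alt (CM ratio)

/-- `X` is a random closed set: closed values, and `{X ∩ G ≠ ∅}` is an event for open `G`. -/
structure IsRandomClosedSet {E : Type*} [TopologicalSpace E] {Ω : Type*} [MeasurableSpace Ω]
    (X : Ω → Set E) : Prop where
  closed : ∀ ω, IsClosed (X ω)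
  hit : ∀ G : Set E, IsOpen G → MeasurableSet {ω | (X ω ∩ G).Nonempty}

/-- The supremum of the likelihood over `K`, equal to `0` for `K = ∅`. -/
noncomputable def supL {E : Type*} (L : E → ℝ≥0) (K : Set E) : ℝ≥0∞ := ⨆ x ∈ K, (L x : ℝ≥0∞)

/-- The infimum of the likelihood over `K`. -/
noncomputable def infL {E : Type*} (L : E → ℝ≥0) (K : Set E) : ℝ≥0∞ := ⨅ x ∈ K, (L x : ℝ≥0∞)

/-- `s(A) = E [sup_{x ∈ X ∩ A} L(x)]`. -/
noncomputable def s {E Ω : Type*} [MeasurableSpace Ω] (P : Measure Ω) (X : Ω → Set E)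
    (L : E → ℝ≥0) (A : Set E) : ℝ≥0∞ := ∫⁻ ω, supL L (X ω ∩ A) ∂P

/-- `t(A) = E [inf_{x ∈ X} L(x) 1{X ∩ A = ∅}]`. -/
noncomputable def t {E Ω : Type*} [MeasurableSpace Ω] (P : Measure Ω) (X : Ω → Set E)
    (L : E → ℝ≥0) (A : Set E) : ℝ≥0∞ :=
  ∫⁻ ω, {ω | X ω ∩ A = ∅}.indicator (fun ω => infL L (X ω)) ω ∂P

/-- The posterior upper probability `v(A) = s(A) / (s(A) + t(A))`; it is `1` if `s(A) = ∞`
and `0` if `s(A) = t(A) = 0`. -/
noncomputable def v {E Ω : Type*} [MeasurableSpace Ω] (P : Measure Ω) (X : Ω → Set E)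
    (L : E → ℝ≥0) (A : Set E) : ℝ :=
  if s P X L A = ⊤ then 1 else (s P X L A / (s P X L A + t P X L A)).toReal

section sets

variable {E : Type*} (L : E → ℝ≥0)

lemma lt_supL {K : Set E} {c : ℝ≥0∞} : c < supL L K ↔ ∃ x ∈ K, c < L x := by
  simp [supL, lt_iSup_iff]

lemma infL_lt {K : Set E} {c : ℝ≥0∞} : infL L K < c ↔ ∃ x ∈ K, (L x : ℝ≥0∞) < c := by
  simp [infL, iInf_lt_iff]

lemma supL_union (K K' : Set E) : supL L (K ∪ K') = max (supL L K) (supL L K') := by
  apply le_antisymm
  · apply iSup₂_le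
    rintro x (hx | hx)
    · exact le_max_of_le_left (le_iSup₂ (f := fun x _ => (L x : ℝ≥0∞)) x hx)
    · exact le_max_of_le_right (le_iSup₂ (f := fun x _ => (L x : ℝ≥0∞)) x hx)
  · apply max_le
    · exact iSup₂_le (fun x hx => le_iSup₂ (f := fun x _ => (L x : ℝ≥0∞)) x (Or.inl hx))
    · exact iSup₂_le (fun x hx => le_iSup₂ (f := fun x _ => (L x : ℝ≥0∞)) x (Or.inr hx))

lemma supL_empty : supL L (∅ : Set E) = 0 := by simp [supL]

lemma infL_le_supL {K A : Set E} (h : (K ∩ A).Nonempty) : infL L K ≤ supL L (K ∩ A) := by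
  obtain ⟨x, hx⟩ := h
  exact (iInf₂_le (f := fun x _ => (L x : ℝ≥0∞)) x hx.1).trans
    (le_iSup₂ (f := fun x _ => (L x : ℝ≥0∞)) x hx)

open Classical in
/-- the pathwise function -/
noncomputable def hf (m : ℕ) (K A : Set E) : ℝ :=
  (min (supL L (K ∩ A)) m).toReal + (if K ∩ A = ∅ then (min (infL L K) m).toReal else 0) -
    (min (infL L K) m).toReal

lemma hf_union (m : ℕ) (K A B : Set E) : hf L m K (A ∪ B) = max (hf L m K A) (hf L m K B) := by
  have mm : ∀ a b : ℝ≥0∞, (min (max a b) (m : ℝ≥0∞)).toReal =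
      max (min a (m : ℝ≥0∞)).toReal (min b (m : ℝ≥0∞)).toReal := by
    intro a b
    rw [min_max_distrib_right, ENNReal.toReal_max] <;>
      exact ne_top_of_le_ne_top (ENNReal.natCast_ne_top m) (min_le_right _ _)
  have key : ∀ C : Set E, (K ∩ C).Nonempty → (min (infL L K) (m : ℝ≥0∞)).toReal ≤
      (min (supL L (K ∩ C)) (m : ℝ≥0∞)).toReal := by
    intro C hC
    apply ENNReal.toReal_mono
      (ne_top_of_le_ne_top (ENNReal.natCast_ne_top m) (min_le_right _ _))
    exact min_le_min_right _ (infL_le_supL L hC)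
  unfold hf
  rw [inter_union_distrib_left, supL_union, mm]
  rcases eq_empty_or_nonempty (K ∩ A) with hA | hA <;>
    rcases eq_empty_or_nonempty (K ∩ B) with hB | hB
  · simp [hA, hB]
  · have hB' : K ∩ B ≠ ∅ := hB.ne_empty
    have h1 := key B hB
    rw [if_pos hA, if_neg hB', if_neg (by rw [hA, empty_union]; exact hB'), hA, supL_empty]
    simp only [zero_le, inf_of_le_left, ENNReal.toReal_zero]
    rw [max_eq_right ENNReal.toReal_nonneg, max_eq_right (by linarith)]
  · have hA' : K ∩ A ≠ ∅ := hA.ne_empty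
    have h1 := key A hA
    rw [if_pos hB, if_neg hA', if_neg (by rw [hB, union_empty]; exact hA'), hB, supL_empty]
    simp only [zero_le, inf_of_le_left, ENNReal.toReal_zero]
    rw [max_eq_left ENNReal.toReal_nonneg, max_eq_left (by linarith)]
  · have hA' : K ∩ A ≠ ∅ := hA.ne_empty
    have hB' : K ∩ B ≠ ∅ := hB.ne_empty
    rw [if_neg hA', if_neg hB', if_neg (fun h => hA' (by
      rw [union_empty_iff] at h; exact h.1))]
    rw [add_zero, add_zero, add_zero, max_sub_sub_right]

lemma hf_nonneg (m : ℕ) (K A : Set E) : 0 ≤ hf L m K A := by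
  unfold hf
  rcases eq_empty_or_nonempty (K ∩ A) with hA | hA
  · rw [if_pos hA, hA, supL_empty]
    simp
  · rw [if_neg hA.ne_empty]
    have : (min (infL L K) (m : ℝ≥0∞)).toReal ≤ (min (supL L (K ∩ A)) (m : ℝ≥0∞)).toReal := by
      apply ENNReal.toReal_mono
        (ne_top_of_le_ne_top (ENNReal.natCast_ne_top m) (min_le_right _ _))
      exact min_le_min_right _ (infL_le_supL L hA)
    linarith

lemma hf_le (m : ℕ) (K A : Set E) : hf L m K A ≤ m := by
  have h1 : (min (supL L (K ∩ A)) (m : ℝ≥0∞)).toReal ≤ m := by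
    have := ENNReal.toReal_mono (ENNReal.natCast_ne_top m)
      (min_le_right (supL L (K ∩ A)) (m : ℝ≥0∞))
    simpa using this
  have h2 : (0 : ℝ) ≤ (min (infL L K) (m : ℝ≥0∞)).toReal := ENNReal.toReal_nonneg
  unfold hf
  rcases eq_empty_or_nonempty (K ∩ A) with hA | hA
  · rw [if_pos hA, hA, supL_empty]
    simp
  · rw [if_neg hA.ne_empty]
    linarith

end sets

section main

variable {E : Type*} [TopologicalSpace E] [PolishSpace E] [MeasurableSpace E] [BorelSpace E]
  {Ω : Type*} [MeasurableSpace Ω] {P : Measure Ω} [IsProbabilityMeasure P] {X : Ω → Set E}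
  {L : E → ℝ≥0}

lemma aem_supL (hX : IsRandomClosedSet X) (hL : Measurable L) {A : Set E}
    (hA : MeasurableSet A) : AEMeasurable (fun ω => supL L (X ω ∩ A)) P := by
  apply NullMeasurable.aemeasurable
  have : @Measurable (NullMeasurableSpace Ω P) ℝ≥0∞ _ _ (fun ω => supL L (X ω ∩ A)) := by
    apply measurable_of_Ioi
    intro c
    have e : (fun ω => supL L (X ω ∩ A)) ⁻¹' Ioi c =
        {ω | (X ω ∩ (A ∩ {x | c < L x})).Nonempty} := by
      ext ω
      simp only [mem_preimage, mem_Ioi, lt_supL]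
      constructor
      · rintro ⟨x, hx, hxc⟩
        exact ⟨x, hx.1, hx.2, hxc⟩
      · rintro ⟨x, hx1, hx2, hxc⟩
        exact ⟨x, ⟨hx1, hx2⟩, hxc⟩
    have h1 := Pool.Agent.Q210.Alt.hit_null hX.closed hX.hit P
      (hA.inter (measurableSet_lt (measurable_const (a := c)) hL.coe_nnreal_ennreal))
    rw [← e] at h1
    exact h1
  exact this

lemma aem_infL (hX : IsRandomClosedSet X) (hL : Measurable L) :
    AEMeasurable (fun ω => infL L (X ω)) P := by
  apply NullMeasurable.aemeasurable
  have : @Measurable (NullMeasurableSpace Ω P) ℝ≥0∞ _ _ (fun ω => infL L (X ω)) := by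
    apply measurable_of_Iio
    intro c
    have e : (fun ω => infL L (X ω)) ⁻¹' Iio c =
        {ω | (X ω ∩ {x | (L x : ℝ≥0∞) < c}).Nonempty} := by
      ext ω
      simp only [mem_preimage, mem_Iio, infL_lt]
      rfl
    have h1 := Pool.Agent.Q210.Alt.hit_null hX.closed hX.hit P
      (measurableSet_lt hL.coe_nnreal_ennreal (measurable_const (a := c)))
    rw [← e] at h1
    exact h1
  exact this

lemma null_empty (hX : IsRandomClosedSet X) {A : Set E} (hA : MeasurableSet A) :
    NullMeasurableSet {ω | X ω ∩ A = ∅} P := by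
  have e : {ω | X ω ∩ A = ∅} = {ω | (X ω ∩ A).Nonempty}ᶜ := by
    ext ω
    simp [not_nonempty_iff_eq_empty]
  rw [e]
  exact (Pool.Agent.Q210.Alt.hit_null hX.closed hX.hit P hA).compl

/-- truncated `s` -/
noncomputable def sm (P : Measure Ω) (X : Ω → Set E) (L : E → ℝ≥0) (m : ℕ) (A : Set E) : ℝ≥0∞ :=
  ∫⁻ ω, min (supL L (X ω ∩ A)) m ∂P

/-- truncated `t` -/
noncomputable def tm (P : Measure Ω) (X : Ω → Set E) (L : E → ℝ≥0) (m : ℕ) (A : Set E) : ℝ≥0∞ :=
  ∫⁻ ω, {ω | X ω ∩ A = ∅}.indicator (fun ω => min (infL L (X ω)) m) ω ∂P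

lemma iSup_min (a : ℝ≥0∞) : ⨆ m : ℕ, min a (m : ℝ≥0∞) = a := by
  rw [← inf_iSup_eq, ENNReal.iSup_natCast]
  simp

lemma sm_mono (A : Set E) : Monotone (fun m => sm P X L m A) := by
  intro m m' h
  apply lintegral_mono
  intro ω
  exact min_le_min_left _ (by exact_mod_cast h)

lemma tm_mono (A : Set E) : Monotone (fun m => tm P X L m A) := by
  intro m m' h
  apply lintegral_mono
  intro ω
  apply indicator_le_indicator
  exact min_le_min_left _ (by exact_mod_cast h)

lemma sm_iSup (hX : IsRandomClosedSet X) (hL : Measurable L) {A : Set E}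
    (hA : MeasurableSet A) : ⨆ m, sm P X L m A = s P X L A := by
  unfold sm s
  rw [← lintegral_iSup']
  · simp only [iSup_min]
  · intro m
    exact (aem_supL hX hL hA).min aemeasurable_const
  · filter_upwards with ω m m' h
    exact min_le_min_left _ (by exact_mod_cast h)

lemma tm_iSup (hX : IsRandomClosedSet X) (hL : Measurable L) {A : Set E}
    (hA : MeasurableSet A) : ⨆ m, tm P X L m A = t P X L A := by
  unfold tm t
  rw [← lintegral_iSup']
  · congr 1
    funext ω
    by_cases h : ω ∈ {ω | X ω ∩ A = ∅}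
    · simp only [indicator_of_mem h, iSup_min]
    · simp only [indicator_of_notMem h, iSup_const]
  · intro m
    exact ((aem_infL hX hL).min aemeasurable_const).indicator₀ (null_empty hX hA)
  · filter_upwards with ω m m' h
    apply indicator_le_indicator
    exact min_le_min_left _ (by exact_mod_cast h)

lemma sm_ne_top (m : ℕ) (A : Set E) : sm P X L m A ≠ ⊤ := by
  have h : sm P X L m A ≤ ∫⁻ _, (m : ℝ≥0∞) ∂P := lintegral_mono (fun ω => min_le_right _ _)
  rw [lintegral_const, measure_univ, mul_one] at h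
  exact ne_top_of_le_ne_top (ENNReal.natCast_ne_top m) h

lemma tm_ne_top (m : ℕ) (A : Set E) : tm P X L m A ≠ ⊤ := by
  have h : tm P X L m A ≤ ∫⁻ _, (m : ℝ≥0∞) ∂P := by
    apply lintegral_mono
    intro ω
    apply indicator_le
    intro ω _
    exact min_le_right _ _
  rw [lintegral_const, measure_univ, mul_one] at h
  exact ne_top_of_le_ne_top (ENNReal.natCast_ne_top m) h

lemma min_ne_top (a : ℝ≥0∞) (m : ℕ) : min a (m : ℝ≥0∞) ≠ ⊤ :=
  ne_top_of_le_ne_top (ENNReal.natCast_ne_top m) (min_le_right _ _)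

lemma min_toReal_le (a : ℝ≥0∞) (m : ℕ) : (min a (m : ℝ≥0∞)).toReal ≤ m := by
  have := ENNReal.toReal_mono (ENNReal.natCast_ne_top m) (min_le_right a (m : ℝ≥0∞))
  simpa using this

lemma integrable_of_bdd {f : Ω → ℝ} (hf : AEStronglyMeasurable f P) {C : ℝ}
    (h : ∀ ω, |f ω| ≤ C) : Integrable f P :=
  Integrable.of_bound hf C (Eventually.of_forall h)

open Classical in
lemma trunc_CM (hX : IsRandomClosedSet X) (hL : Measurable L) (m : ℕ) :
    CM {A : Set E | MeasurableSet A} (fun A => 1 - (sm P X L m A).toReal /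
      ((sm P X L m A).toReal + (tm P X L m A).toReal + 1 / ((m : ℝ) + 1))) := by
  have hS : ∀ A ∈ {A : Set E | MeasurableSet A}, ∀ B ∈ {A : Set E | MeasurableSet A},
      A ∪ B ∈ {A : Set E | MeasurableSet A} := fun A hA B hB => MeasurableSet.union hA hB
  -- integrability
  have iσ : ∀ A ∈ {A : Set E | MeasurableSet A},
      Integrable (fun ω => (min (supL L (X ω ∩ A)) (m : ℝ≥0∞)).toReal) P := by
    intro A hA
    apply integrable_of_bdd (C := m)
    · exact ((aem_supL hX hL hA).min aemeasurable_const).ennreal_toReal.aestronglyMeasurable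
    · intro ω
      rw [abs_of_nonneg ENNReal.toReal_nonneg]
      exact min_toReal_le _ _
  have iι : Integrable (fun ω => (min (infL L (X ω)) (m : ℝ≥0∞)).toReal) P := by
    apply integrable_of_bdd (C := m)
    · exact ((aem_infL hX hL).min aemeasurable_const).ennreal_toReal.aestronglyMeasurable
    · intro ω
      rw [abs_of_nonneg ENNReal.toReal_nonneg]
      exact min_toReal_le _ _
  have iτ : ∀ A ∈ {A : Set E | MeasurableSet A}, Integrable (fun ω =>
      if X ω ∩ A = ∅ then (min (infL L (X ω)) (m : ℝ≥0∞)).toReal else 0) P := by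
    intro A hA
    exact iι.indicator₀ (null_empty hX hA)
  have ih : ∀ A ∈ {A : Set E | MeasurableSet A},
      Integrable (fun ω => (m : ℝ) - hf L m (X ω) A) P := by
    intro A hA
    exact (integrable_const _).sub (((iσ A hA).add (iτ A hA)).sub iι)
  -- the two completely monotone functions
  have hT : CM {A : Set E | MeasurableSet A} (fun A => ∫ ω,
      (if X ω ∩ A = ∅ then (min (infL L (X ω)) (m : ℝ≥0∞)).toReal else 0) ∂P) := by
    apply CM.integral hS _ iτ
    intro ω
    have h1 : CM {A : Set E | MeasurableSet A} (fun A => if X ω ∩ A = ∅ then (1 : ℝ) else 0) := by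
      apply CM.of_mul
      · intro A B
        rw [inter_union_distrib_left]
        by_cases hA : X ω ∩ A = ∅ <;> by_cases hB : X ω ∩ B = ∅ <;> simp [hA, hB]
      · intro A; split_ifs <;> norm_num
      · intro A; split_ifs <;> norm_num
    have h2 := h1.const_mul (c := (min (infL L (X ω)) (m : ℝ≥0∞)).toReal) ENNReal.toReal_nonneg
    simpa only [mul_ite, mul_one, mul_zero] using h2
  have hG : CM {A : Set E | MeasurableSet A} (fun A => ∫ ω, ((m : ℝ) - hf L m (X ω) A) ∂P) := by
    apply CM.integral hS _ ih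
    intro ω
    have h1 : CM univ (fun A => (m : ℝ) - hf L m (X ω) A) := by
      apply CM.of_min (b := m)
      · intro A B
        rw [hf_union, min_sub_sub_left]
      · intro A
        have := hf_le L m (X ω) A
        linarith
      · intro A
        have := hf_nonneg L m (X ω) A
        linarith
    exact h1.mono (subset_univ _)
  have hGb : ∀ A ∈ {A : Set E | MeasurableSet A}, ∫ ω, ((m : ℝ) - hf L m (X ω) A) ∂P ≤ m := by
    intro A hA
    have h1 : ∫ ω, ((m : ℝ) - hf L m (X ω) A) ∂P ≤ ∫ _, (m : ℝ) ∂P := by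
      apply integral_mono (ih A hA) (integrable_const _)
      intro ω
      have := hf_nonneg L m (X ω) A
      show (m : ℝ) - hf L m (X ω) A ≤ m
      linarith
    simpa using h1
  have hc : 0 ≤ ∫ ω, (min (infL L (X ω)) (m : ℝ≥0∞)).toReal ∂P :=
    integral_nonneg (fun ω => ENNReal.toReal_nonneg)
  have hδ : (0 : ℝ) < 1 / ((m : ℝ) + 1) := by positivity
  have key := Pool.Agent.Q210.Alt.core_CM hS hT hG hGb hc hδ
  apply CM.congr hS key
  · intro B hB
    have e1 : (sm P X L m B).toReal = ∫ ω, (min (supL L (X ω ∩ B)) (m : ℝ≥0∞)).toReal ∂P := by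
      rw [integral_toReal]
      · rfl
      · exact (aem_supL hX hL hB).min aemeasurable_const
      · exact Eventually.of_forall (fun ω => (min_ne_top _ m).lt_top)
    have e2 : (tm P X L m B).toReal = ∫ ω,
        (if X ω ∩ B = ∅ then (min (infL L (X ω)) (m : ℝ≥0∞)).toReal else 0) ∂P := by
      have e3 : ∀ ω, (if X ω ∩ B = ∅ then (min (infL L (X ω)) (m : ℝ≥0∞)).toReal else 0) =
          ({ω | X ω ∩ B = ∅}.indicator (fun ω => min (infL L (X ω)) (m : ℝ≥0∞)) ω).toReal := by
        intro ω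
        by_cases h : X ω ∩ B = ∅
        · rw [if_pos h, indicator_of_mem (show ω ∈ {ω | X ω ∩ B = ∅} from h)]
        · rw [if_neg h, indicator_of_notMem (show ω ∉ {ω | X ω ∩ B = ∅} from h)]
          simp
      simp only [e3]
      rw [integral_toReal]
      · rfl
      · exact ((aem_infL hX hL).min aemeasurable_const).indicator₀ (null_empty hX hB)
      · refine Eventually.of_forall (fun ω => ?_)
        by_cases h : ω ∈ {ω | X ω ∩ B = ∅}
        · rw [indicator_of_mem h]
          exact (min_ne_top _ m).lt_top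
        · rw [indicator_of_notMem h]
          exact ENNReal.zero_lt_top
    have e4 : ∫ ω, ((m : ℝ) - hf L m (X ω) B) ∂P = m - ((sm P X L m B).toReal +
        (tm P X L m B).toReal - ∫ ω, (min (infL L (X ω)) (m : ℝ≥0∞)).toReal ∂P) := by
      have j1 : Integrable (fun ω => (min (supL L (X ω ∩ B)) (m : ℝ≥0∞)).toReal +
          (if X ω ∩ B = ∅ then (min (infL L (X ω)) (m : ℝ≥0∞)).toReal else 0)) P :=
        (iσ B hB).add (iτ B hB)
      have j2 : Integrable (fun ω => (min (supL L (X ω ∩ B)) (m : ℝ≥0∞)).toReal +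
          (if X ω ∩ B = ∅ then (min (infL L (X ω)) (m : ℝ≥0∞)).toReal else 0) -
          (min (infL L (X ω)) (m : ℝ≥0∞)).toReal) P := j1.sub iι
      unfold hf
      rw [integral_sub (integrable_const _) j2, integral_sub j1 iι,
        integral_add (iσ B hB) (iτ B hB), e1, e2]
      simp
    rw [e4, ← e2]
    have hpos : (0 : ℝ) < (sm P X L m B).toReal + (tm P X L m B).toReal + 1 / ((m : ℝ) + 1) := by
      positivity
    have e5 : (∫ ω, (min (infL L (X ω)) (m : ℝ≥0∞)).toReal ∂P) + 1 / ((m : ℝ) + 1) + m -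
        (m - ((sm P X L m B).toReal + (tm P X L m B).toReal -
          ∫ ω, (min (infL L (X ω)) (m : ℝ≥0∞)).toReal ∂P)) =
        (sm P X L m B).toReal + (tm P X L m B).toReal + 1 / ((m : ℝ) + 1) := by ring
    rw [e5, ← div_eq_mul_inv, eq_div_iff hpos.ne', sub_mul, div_mul_cancel₀ _ hpos.ne']
    ring

/-- For every random closed set `X` in a Polish space (in particular in a locally compact second
countable Hausdorff space) and every Borel likelihood `L`, the posterior upper probability
`v = s / (s + t)` is completely alternating on the Borel sets. -/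
theorem result {E : Type*} [TopologicalSpace E] [PolishSpace E] [MeasurableSpace E] [BorelSpace E]
    {Ω : Type*} [MeasurableSpace Ω] (P : Measure Ω) [IsProbabilityMeasure P] (X : Ω → Set E)
    (hX : IsRandomClosedSet X) (L : E → ℝ≥0) (hL : Measurable L)
    (hfin : ∫⁻ ω, infL L (X ω) ∂P ≠ ⊤) (n : ℕ) (hn : n ≠ 0) (A : ℕ → Set E)
    (hA : ∀ i, MeasurableSet (A i)) :
    v P X L (⋂ i ∈ Finset.range n, A i) ≤
      ∑ I ∈ (Finset.range n).powerset.erase ∅,
        (-1 : ℝ) ^ (I.card + 1) * v P X L (⋃ i ∈ I, A i) := by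
  have hlim : ∀ B : Set E, MeasurableSet B → Tendsto (fun m : ℕ => (sm P X L m B).toReal /
      ((sm P X L m B).toReal + (tm P X L m B).toReal + 1 / ((m : ℝ) + 1))) atTop
      (𝓝 (v P X L B)) := by
    intro B hB
    have ht : t P X L B ≠ ⊤ := by
      apply ne_top_of_le_ne_top hfin
      apply lintegral_mono
      intro ω
      exact indicator_le_self' (fun _ _ => zero_le) ω
    exact Pool.Agent.Q210.Alt.ratio_tendsto ht (sm_mono B) (tm_mono B) (fun m => sm_ne_top m B)
      (fun m => tm_ne_top m B) (sm_iSup hX hL hB) (tm_iSup hX hL hB)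
  have hcap : MeasurableSet (⋂ i ∈ Finset.range n, A i) :=
    Finset.measurableSet_biInter _ (fun i _ => hA i)
  have h1 := fun m : ℕ => Pool.Agent.Q210.Alt.alt_of_CM (S := {A : Set E | MeasurableSet A})
    (V := fun A => (sm P X L m A).toReal /
      ((sm P X L m A).toReal + (tm P X L m A).toReal + 1 / ((m : ℝ) + 1)))
    (trunc_CM (P := P) hX hL m) hn (A := A) hA hcap
  refine le_of_tendsto_of_tendsto' (hlim _ hcap) ?_ h1
  apply tendsto_finsetSum
  intro I _
  exact (hlim _ (Finset.measurableSet_biUnion _ (fun i _ => hA i))).const_mul _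

end main

end Pool.Agent.Results.MP_bae362_pr.SelectionPriors
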